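import Pool.Agent.U174.AK.Stm

/-! # Project AK (helper174), package IMM (helper445): immediate extensions -/

set_option autoImplicit false

namespace Pool.Agent.U445.AK.IMM

open Pool.Agent.U174.AK Polynomial IsLocalRing

section one
variable {K : Type} [Field K] {O : ValuationSubring K} {E : Subfield K} {x : K}

theorem ev_and {p q : K → Prop} (hp : Ev O E x p) (hq : Ev O E x q) :
    Ev O E x (fun a => p a ∧ q a) := by
  obtain ⟨a, ha, h1⟩ := hp
  obtain ⟨b, hb, h2⟩ := hq
  rcases le_total (O.valuation (x - a)) (O.valuation (x - b)) with h | h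
  · exact ⟨a, ha, fun c hc hca => ⟨h1 c hc hca, h2 c hc (hca.trans h)⟩⟩
  · exact ⟨b, hb, fun c hc hcb => ⟨h1 c hc (hcb.trans h), h2 c hc hcb⟩⟩

theorem ev_mono {p q : K → Prop} (hp : Ev O E x p) (h : ∀ a ∈ E, p a → q a) : Ev O E x q := by
  obtain ⟨a, ha, h1⟩ := hp
  exact ⟨a, ha, fun c hc hca => h c hc (h1 c hc hca)⟩

theorem ev_ex {p : K → Prop} (hp : Ev O E x p) : ∃ a ∈ E, p a := by
  obtain ⟨a, ha, h1⟩ := hp
  exact ⟨a, ha, h1 a ha le_rfl⟩

theorem small (hT : S_TAY) (hD : S_DOM) (hN : NoBest O E x) (R : K[X])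
    (hc : ∃ δ, Ev O E x fun a => O.valuation (R.eval a) = δ) :
    (Ev O E x fun a => O.valuation (R.eval a) = O.valuation (R.eval x)) ∧
      (R.eval x ≠ 0 → Ev O E x fun a =>
        O.valuation (R.eval a - R.eval x) < O.valuation (R.eval x)) := by
  have h1 : Ev O E x fun a => O.valuation (R.eval a) = O.valuation (R.eval x) := by
    rcases hT K O E x hN R with h | h
    · exact h.2
    · exfalso
      obtain ⟨δ, hδ⟩ := hc
      obtain ⟨a, ha, h2⟩ := ev_and hδ h
      obtain ⟨b, hb, hab⟩ := hN a ha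
      have h3 := h2 a ha le_rfl
      have h4 := h2 b hb hab.le
      have h5 := h3.2.2 b hb hab
      rw [h3.1, h4.1] at h5
      exact lt_irrefl _ h5
  refine ⟨h1, fun hx => ?_⟩
  have hx0 : 0 < O.valuation (R.eval x) := zero_lt_iff.mpr ((Valuation.ne_zero_iff _).mpr hx)
  rcases hD K O E x hN R with h | ⟨n, hn, hcn, hE⟩
  · refine ev_mono h1 fun a ha _ => ?_
    have h2 : R.eval a = R.eval x := by
      have h3 : taylor x R = C ((taylor x R).coeff 0) := by
        ext i
        rw [coeff_C]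
        split_ifs with hi
        · rw [hi]
        · exact h i (Nat.one_le_iff_ne_zero.mpr hi)
      have h4 : (taylor x R).eval (a - x) = R.eval a := by
        rw [taylor_eval, sub_add_cancel]
      rw [← h4, h3, eval_C, taylor_coeff_zero]
    rw [h2, sub_self, map_zero]
    exact hx0
  · obtain ⟨a, ha, h2⟩ := ev_and h1 hE
    obtain ⟨b, hb, hab⟩ := hN a ha
    refine ⟨b, hb, fun c hc hcb => ?_⟩
    have hlt : O.valuation (x - c) < O.valuation (x - a) := hcb.trans_lt hab
    have e1 := (h2 c hc hlt.le).2.1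
    have e2 := (h2 a ha le_rfl).2.1
    have e3 : O.valuation (R.eval a - R.eval x) ≤ O.valuation (R.eval x) :=
      Valuation.map_sub_le _ (h2 a ha le_rfl).1.le le_rfl
    have hcn0 : 0 < O.valuation ((taylor x R).coeff n) :=
      zero_lt_iff.mpr ((Valuation.ne_zero_iff _).mpr hcn)
    calc O.valuation (R.eval c - R.eval x)
        = O.valuation ((taylor x R).coeff n) * O.valuation (x - c) ^ n := e1
      _ < O.valuation ((taylor x R).coeff n) * O.valuation (x - a) ^ n :=
          mul_lt_mul_of_pos_left (pow_lt_pow_left₀ hlt zero_le (by omega)) hcn0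
      _ = O.valuation (R.eval a - R.eval x) := e2.symm
      _ ≤ O.valuation (R.eval x) := e3

theorem val_eq {a b : K} (h : O.valuation (a - b) < O.valuation a) :
    O.valuation b = O.valuation a := by
  have h1 : b = a - (a - b) := by ring
  rw [h1]
  exact Valuation.map_sub_eq_of_lt_left _ h

theorem rs_congr {a b : K} (h : O.valuation (a - b) < O.valuation a) : rs O a = rs O b := by
  have hv := val_eq h
  unfold rs
  by_cases ha : a ∈ O
  · have hb : b ∈ O := by
      rw [← ValuationSubring.valuation_le_one_iff, hv, ValuationSubring.valuation_le_one_iff]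
      exact ha
    rw [dif_pos ha, dif_pos hb, ← sub_eq_zero, ← map_sub, residue_eq_zero_iff,
      ValuationSubring.valuation_lt_one_iff]
    exact h.trans_le ((ValuationSubring.valuation_le_one_iff _ _).mpr ha)
  · have hb : b ∉ O := by
      rw [← ValuationSubring.valuation_le_one_iff, hv, ValuationSubring.valuation_le_one_iff]
      exact ha
    rw [dif_neg ha, dif_neg hb]

theorem rs_div {A B A' B' : K} (hA : O.valuation (A' - A) < O.valuation A)
    (hB : O.valuation (B' - B) < O.valuation B) : rs O (A / B) = rs O (A' / B') := by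
  have hA1 : O.valuation A' = O.valuation A := val_eq (by rwa [Valuation.map_sub_swap])
  have hB1 : O.valuation B' = O.valuation B := val_eq (by rwa [Valuation.map_sub_swap])
  have hA0 : O.valuation A ≠ 0 := (zero_le.trans_lt hA).ne'
  have hB0 : O.valuation B ≠ 0 := (zero_le.trans_lt hB).ne'
  have a0 : A ≠ 0 := (Valuation.ne_zero_iff _).mp hA0
  have b0 : B ≠ 0 := (Valuation.ne_zero_iff _).mp hB0
  have b0' : B' ≠ 0 := (Valuation.ne_zero_iff _).mp (hB1 ▸ hB0)
  apply rs_congr
  have e : A / B - A' / B' = ((A - A') * B' + A' * (B' - B)) / (B * B') := by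
    field_simp
    ring
  rw [e, map_div₀, map_div₀, map_mul, hB1]
  have h1 : O.valuation ((A - A') * B' + A' * (B' - B)) < O.valuation A * O.valuation B := by
    apply Valuation.map_add_lt
    · rw [map_mul, hB1, Valuation.map_sub_swap]
      exact mul_lt_mul_of_pos_right hA (zero_lt_iff.mpr hB0)
    · rw [map_mul, hA1]
      exact mul_lt_mul_of_pos_left hB (zero_lt_iff.mpr hA0)
  rw [div_lt_div_iff₀ (zero_lt_iff.mpr (mul_ne_zero hB0 hB0)) (zero_lt_iff.mpr hB0)]
  calc O.valuation ((A - A') * B' + A' * (B' - B)) * O.valuation B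
      < O.valuation A * O.valuation B * O.valuation B :=
        mul_lt_mul_of_pos_right h1 (zero_lt_iff.mpr hB0)
    _ = O.valuation A * (O.valuation B * O.valuation B) := mul_assoc _ _ _

end one

section two
variable {F L : Type} [Field F] [Field L] {O : ValuationSubring F} {P : ValuationSubring L}
  {ρ : ResidueField O →+* ResidueField P} {ν : O.ValueGroup →*₀ P.ValueGroup} {E : Subfield F}
  {g : E →+* L} {w : F} {w' : L}

theorem ev_iff (hν : StrictMono ν)
    (hw : ∀ a : E, P.valuation (w' - g a) = ν (O.valuation (w - (a : F)))) (p : L → Prop) :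
    Ev P g.fieldRange w' p ↔ Ev O E w (fun a => ∀ h : a ∈ E, p (g ⟨a, h⟩)) := by
  constructor
  · rintro ⟨b, hb, h⟩
    obtain ⟨a, rfl⟩ := hb
    refine ⟨a, a.2, fun c hc hca h' => h _ ⟨⟨c, h'⟩, rfl⟩ ?_⟩
    rw [hw, hw]
    exact hν.monotone hca
  · rintro ⟨a, ha, h⟩
    refine ⟨g ⟨a, ha⟩, ⟨⟨a, ha⟩, rfl⟩, ?_⟩
    rintro _ ⟨c, rfl⟩ hc
    rw [hw, hw, hν.le_iff_le] at hc
    exact h c c.2 hc c.2

theorem noBest_iff (hν : StrictMono ν)
    (hw : ∀ a : E, P.valuation (w' - g a) = ν (O.valuation (w - (a : F)))) (hN : NoBest O E w) :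
    NoBest P g.fieldRange w' := by
  rintro _ ⟨a, rfl⟩
  obtain ⟨b, hb, hab⟩ := hN a a.2
  refine ⟨g ⟨b, hb⟩, ⟨⟨b, hb⟩, rfl⟩, ?_⟩
  rw [hw, hw]
  exact hν hab

theorem eval_sub (R : E[X]) (a : E) : R.eval₂ E.subtype (a : F) = ((R.eval a : E) : F) :=
  eval₂_at_apply E.subtype a

theorem const_iff (hg : Part O P ρ ν E g) (hν : StrictMono ν)
    (hw : ∀ a : E, P.valuation (w' - g a) = ν (O.valuation (w - (a : F)))) (R : E[X]) :
    (∃ δ, Ev P g.fieldRange w' fun b => P.valuation (R.eval₂ g b) = δ) ↔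
      ∃ δ, Ev O E w fun a => O.valuation (R.eval₂ E.subtype a) = δ := by
  constructor
  · rintro ⟨δ, hδ⟩
    rw [ev_iff hν hw] at hδ
    obtain ⟨a, ha, h⟩ := hδ
    refine ⟨O.valuation (R.eval₂ E.subtype a), a, ha, fun c hc hca => ?_⟩
    have h1 := h a ha le_rfl ha
    have h2 := h c hc hca hc
    rw [← h1, eval₂_at_apply, eval₂_at_apply, hg.val, hg.val] at h2
    have h3 := hν.injective h2
    have e1 := eval_sub R ⟨a, ha⟩
    have e2 := eval_sub R ⟨c, hc⟩
    show O.valuation (R.eval₂ E.subtype c) = O.valuation (R.eval₂ E.subtype a)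
    exact (congrArg O.valuation e2).trans (h3.trans (congrArg O.valuation e1).symm)
  · rintro ⟨δ, hδ⟩
    refine ⟨ν δ, (ev_iff hν hw _).mpr (ev_mono hδ fun a ha h h' => ?_)⟩
    rw [eval₂_at_apply, hg.val, ← h]
    congr 2
    exact (eval_sub R ⟨a, ha⟩).symm

/-- values -/
theorem core (hT : S_TAY) (hD : S_DOM) (hg : Part O P ρ ν E g) (hν : StrictMono ν)
    (hw : ∀ a : E, P.valuation (w' - g a) = ν (O.valuation (w - (a : F)))) (hN : NoBest O E w)
    (R : E[X]) (hc : ∃ δ, Ev O E w fun a => O.valuation (R.eval₂ E.subtype a) = δ) :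
    P.valuation (R.eval₂ g w') = ν (O.valuation (R.eval₂ E.subtype w)) ∧
      (R.eval₂ E.subtype w ≠ 0 → Ev O E w fun a => ∀ h : a ∈ E,
        O.valuation (((R.eval ⟨a, h⟩ : E) : F) - R.eval₂ E.subtype w) <
            O.valuation (R.eval₂ E.subtype w) ∧
          P.valuation (g (R.eval ⟨a, h⟩) - R.eval₂ g w') < P.valuation (R.eval₂ g w')) := by
  have hc' := (const_iff hg hν hw R).mpr hc
  have hN' := noBest_iff hν hw hN
  obtain ⟨h1, h2⟩ := small hT hD hN (R.map E.subtype) (by simpa only [eval_map] using hc)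
  obtain ⟨h3, h4⟩ := small hT hD hN' (R.map g) (by simpa only [eval_map] using hc')
  simp only [eval_map] at h1 h2 h3 h4
  have hval : P.valuation (R.eval₂ g w') = ν (O.valuation (R.eval₂ E.subtype w)) := by
    rw [ev_iff hν hw] at h3
    obtain ⟨a, ha, h5, h6⟩ := ev_ex (ev_and h1 h3)
    have h7 := h6 ha
    rw [eval₂_at_apply, hg.val] at h7
    rw [← h7, ← h5]
    congr 2
    exact (eval_sub R ⟨a, ha⟩).symm
  refine ⟨hval, fun h0 => ?_⟩
  have h0' : R.eval₂ g w' ≠ 0 := by
    rw [← Valuation.ne_zero_iff P.valuation, hval]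
    intro h
    rw [map_eq_zero] at h
    exact h0 ((Valuation.zero_iff _).mp h)
  have h5 := h4 h0'
  rw [ev_iff hν hw] at h5
  refine ev_mono (ev_and (h2 h0) h5) fun a ha h h' => ⟨?_, ?_⟩
  · have h6 := h.1
    have e1 := eval_sub R ⟨a, h'⟩
    rw [← e1]
    exact h6
  · have h6 := h.2 h'
    rw [eval₂_at_apply] at h6
    exact h6

/-- residues -/
theorem core_res (hT : S_TAY) (hD : S_DOM) (hg : Part O P ρ ν E g) (hν : StrictMono ν)
    (hw : ∀ a : E, P.valuation (w' - g a) = ν (O.valuation (w - (a : F)))) (hN : NoBest O E w)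
    (R₁ R₂ : E[X]) (hc₁ : ∃ δ, Ev O E w fun a => O.valuation (R₁.eval₂ E.subtype a) = δ)
    (hc₂ : ∃ δ, Ev O E w fun a => O.valuation (R₂.eval₂ E.subtype a) = δ)
    (h0 : R₂.eval₂ E.subtype w ≠ 0) :
    rs P (R₁.eval₂ g w' / R₂.eval₂ g w') =
      ρ (rs O (R₁.eval₂ E.subtype w / R₂.eval₂ E.subtype w)) := by
  obtain ⟨v1, u1⟩ := core hT hD hg hν hw hN R₁ hc₁
  obtain ⟨v2, u2⟩ := core hT hD hg hν hw hN R₂ hc₂
  have rs0 : ∀ (K : Type) [Field K] (Q : ValuationSubring K), rs Q 0 = 0 := by
    intro K _ Q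
    unfold rs
    rw [dif_pos Q.zero_mem]
    exact map_zero _
  by_cases h1 : R₁.eval₂ E.subtype w = 0
  · have h2 : R₁.eval₂ g w' = 0 := by
      rw [h1, map_zero, map_zero] at v1
      exact (Valuation.zero_iff _).mp v1
    rw [h1, h2, zero_div, zero_div, rs0, rs0, map_zero]
  · obtain ⟨a, ha, h3, h4⟩ := ev_ex (ev_and (u1 h1) (u2 h0))
    obtain ⟨a1, b1⟩ := h3 ha
    obtain ⟨a2, b2⟩ := h4 ha
    rw [rs_div a1 a2, rs_div b1 b2]
    have h5 := hg.res (R₁.eval ⟨a, ha⟩ / R₂.eval ⟨a, ha⟩)
    rw [map_div₀] at h5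
    rw [h5]
    congr 2

end two

theorem t_IMM : S_SIMP → S_PLIM → S_DOM → S_TAY → S_ROOT → S_IMM := by
  intro hS hP hD hT hR F L _ _ O P ρ ν hcF hO hchar hB hν E g hg hres hval x hx
  have hN : NoBest O E x := by
    intro a ha
    have hxa : x - a ≠ 0 := fun h => hx (by rw [sub_eq_zero.mp h]; exact ha)
    obtain ⟨c, hc, hvc⟩ := hval (O.valuation (x - a))
    have hv0 : O.valuation (x - a) ≠ 0 := (Valuation.ne_zero_iff _).mpr hxa
    have hc0 : c ≠ 0 := (Valuation.ne_zero_iff _).mp (hvc ▸ hv0)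
    have h1 : O.valuation ((x - a) / c) = 1 := by
      rw [map_div₀, hvc, div_self hv0]
    have hm : (x - a) / c ∈ O := (ValuationSubring.valuation_le_one_iff _ _).mp h1.le
    obtain ⟨d, hd, hdO, hdr⟩ := hres (rs O ((x - a) / c))
    refine ⟨a + c * d, E.add_mem ha (E.mul_mem hc hd), ?_⟩
    have h2 : O.valuation ((x - a) / c - d) < 1 := by
      have h3 : residue O ⟨(x - a) / c, hm⟩ = residue O ⟨d, hdO⟩ := by
        unfold rs at hdr
        rw [dif_pos hdO, dif_pos hm] at hdr
        exact hdr.symm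
      rw [← sub_eq_zero, ← map_sub, residue_eq_zero_iff,
        ValuationSubring.valuation_lt_one_iff] at h3
      exact h3
    have h4 : x - (a + c * d) = c * ((x - a) / c - d) := by
      field_simp
      ring
    rw [h4, map_mul, ← hvc]
    calc O.valuation c * O.valuation ((x - a) / c - d) < O.valuation c * 1 :=
          mul_lt_mul_of_pos_left h2 (zero_lt_iff.mpr ((Valuation.ne_zero_iff _).mpr hc0))
      _ = O.valuation c := mul_one _
  obtain ⟨y, hy⟩ := hP F L O P ρ ν hcF hB.sat hν E g hg x hN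
  by_cases hall : ∀ Q : E[X], ∃ δ, Ev O E x fun a => O.valuation (Q.eval₂ E.subtype a) = δ
  · obtain ⟨E', g', h1, h2, ⟨h3, -⟩, -⟩ := hS F L O P ρ ν hν E g hg x y
      (fun Q => (core hT hD hg hν hy hN Q (hall Q)).1)
      (fun Q₁ Q₂ h => core_res hT hD hg hν hy hN Q₁ Q₂ (hall Q₁) (hall Q₂) h)
    exact ⟨E', g', h1, h2, x, h3, hx⟩
  · push Not at hall
    -- a polynomial of minimal degree
    classical
    let D : ℕ → Prop := fun n => ∃ Q : E[X], Q.natDegree = n ∧
      ¬ ∃ δ, Ev O E x fun a => O.valuation (Q.eval₂ E.subtype a) = δ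
    have hDex : ∃ n, D n := by
      obtain ⟨Q, hQ⟩ := hall
      exact ⟨_, Q, rfl, fun ⟨δ, h⟩ => hQ δ h⟩
    obtain ⟨Q, hQn, hQ⟩ := Nat.find_spec hDex
    have hmin : ∀ R : E[X], R.natDegree < Q.natDegree →
        ∃ δ, Ev O E x fun a => O.valuation (R.eval₂ E.subtype a) = δ := by
      intro R hRd
      by_contra hcon
      rw [hQn] at hRd
      exact Nat.find_min hDex hRd ⟨R, rfl, hcon⟩
    have hconst : ∀ c : E, ∃ δ, Ev O E x fun a => O.valuation ((C c : E[X]).eval₂ E.subtype a) = δ := by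
      intro c
      refine ⟨O.valuation (c : F), 0, E.zero_mem, fun a _ _ => ?_⟩
      show O.valuation (eval₂ E.subtype a (C c)) = O.valuation (c : F)
      rw [eval₂_C]
      rfl
    have hQd : Q.natDegree ≠ 0 := by
      intro h
      rw [eq_C_of_natDegree_eq_zero h] at hQ
      exact hQ (hconst _)
    have hQ0 : Q ≠ 0 := by
      rintro rfl
      exact hQd natDegree_zero
    obtain ⟨z, hz0, hz⟩ := hR F O hO hchar E x hN Q hQ0 (fun R _ h => hmin R h) hQ
    have hzE : z ∉ E := by
      intro h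
      have := hz z h
      rw [Valuation.map_sub_swap] at this
      exact lt_irrefl _ this
    -- the root in `L`
    have hN' := noBest_iff hν hy hN
    let gr := g.rangeRestrictField
    have hgr : ∀ (R : E[X]) (b : L), (R.map gr).eval₂ g.fieldRange.subtype b = R.eval₂ g b := by
      intro R b
      rw [eval₂_map]
      rfl
    have hgri : Function.Injective gr := RingHom.injective _
    have hgrs : Function.Surjective gr := by
      rintro ⟨_, a, rfl⟩
      exact ⟨a, rfl⟩
    obtain ⟨z', hz0', hz'⟩ := hR L P hB.hen hB.char g.fieldRange y hN' (Q.map gr)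
      (by rwa [Ne, Polynomial.map_eq_zero])
      (by
        intro R hR0 hRd
        obtain ⟨R', rfl⟩ := map_surjective gr hgrs R
        rw [natDegree_map, natDegree_map] at hRd
        simp only [hgr]
        exact (const_iff hg hν hy R').mpr (hmin R' hRd))
      (by
        simp only [hgr]
        rw [const_iff hg hν hy Q]
        exact hQ)
    rw [hgr] at hz0'
    have hdz : ∀ a ∈ E, O.valuation (z - a) = O.valuation (x - a) := by
      intro a ha
      have e : z - a = (z - x) + (x - a) := by ring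
      rw [e]
      exact Valuation.map_add_eq_of_lt_right _ (hz a ha)
    have hdz' : ∀ a : E, P.valuation (z' - g a) = ν (O.valuation (z - (a : F))) := by
      intro a
      have e : z' - g a = (z' - y) + (y - g a) := by ring
      rw [e, Valuation.map_add_eq_of_lt_right _ (hz' (g a) ⟨a, rfl⟩), hy, hdz a a.2]
    have hNz : NoBest O E z := by
      intro a ha
      obtain ⟨b, hb, hab⟩ := hN a ha
      exact ⟨b, hb, by rwa [hdz a ha, hdz b hb]⟩
    have hEz : ∀ p : F → Prop, Ev O E x p → Ev O E z p := by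
      rintro p ⟨a, ha, h⟩
      refine ⟨a, ha, fun c hc hca => h c hc ?_⟩
      rwa [hdz a ha, hdz c hc] at hca
    have hminz : ∀ R : E[X], R.natDegree < Q.natDegree →
        ∃ δ, Ev O E z fun a => O.valuation (R.eval₂ E.subtype a) = δ := by
      intro R hRd
      obtain ⟨δ, h⟩ := hmin R hRd
      exact ⟨δ, hEz _ h⟩
    have hred : ∀ R : E[X], R.eval₂ E.subtype z = (R % Q).eval₂ E.subtype z ∧
        R.eval₂ g z' = (R % Q).eval₂ g z' ∧ (R % Q).natDegree < Q.natDegree := by
      intro R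
      refine ⟨?_, ?_, natDegree_mod_lt R hQd⟩
      · conv_lhs => rw [← EuclideanDomain.div_add_mod R Q]
        rw [eval₂_add, eval₂_mul, hz0, zero_mul, zero_add]
      · conv_lhs => rw [← EuclideanDomain.div_add_mod R Q]
        rw [eval₂_add, eval₂_mul, hz0', zero_mul, zero_add]
    obtain ⟨E', g', h1, h2, ⟨h3, -⟩, -⟩ := hS F L O P ρ ν hν E g hg z z'
      (by
        intro R
        obtain ⟨e1, e2, e3⟩ := hred R
        rw [e1, e2]
        exact (core hT hD hg hν hdz' hNz (R % Q) (hminz _ e3)).1)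
      (by
        intro R₁ R₂ h
        obtain ⟨e1, e2, e3⟩ := hred R₁
        obtain ⟨f1, f2, f3⟩ := hred R₂
        rw [f1] at h
        rw [e1, e2, f1, f2]
        exact core_res hT hD hg hν hdz' hNz _ _ (hminz _ e3) (hminz _ f3) h)
    exact ⟨E', g', h1, h2, z, h3, hzE⟩

end Pool.Agent.U445.AK.IMM
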